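import Pool.Agent.R37.GridBag

set_option autoImplicit false

namespace Pool.Agent.Results.MP_49eb30_co.HyperbolicUnbounded

open Pool.Agent.R37 UpperHalfPlane

/-- `G` is isomorphic to the intersection graph of a family of closed disks of radius `r` in the
hyperbolic plane (Mathlib's upper half-plane with its metric of curvature `-1`), given by the
centres: two disks meet iff their centres are at distance at most `2 * r`. -/
def IsUniformDiskGraph {V : Type} (r : ℝ) (G : SimpleGraph V) : Prop :=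
  ∃ c : V → ℍ, ∀ a b, G.Adj a b ↔ a ≠ b ∧ dist (c a) (c b) ≤ 2 * r

/-- `lay` assigns to each vertex the index of its layer. -/
def IsLayering {V : Type} (G : SimpleGraph V) (lay : V → ℕ) : Prop :=
  ∀ a b, G.Adj a b → lay b ≤ lay a + 1

/-- The layered tree-independence number of `G` is at most `c`. -/
def LayeredTreeAlphaLE {V : Type} (G : SimpleGraph V) (c : ℕ) : Prop :=
  ∃ lay : V → ℕ, IsLayering G lay ∧ ∃ (n : ℕ) (T : SimpleGraph (Fin n)) (X : Fin n → Finset V),
    IsTreeDecomposition G T X ∧ ∀ t i, AlphaLE G ((X t).filter (fun v => lay v = i)) c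

theorem dist_le_iff (z w : ℍ) {r : ℝ} (hr : 0 ≤ r) : dist z w ≤ 2 * r ↔
    (z.re - w.re) ^ 2 + (z.im - w.im) ^ 2 ≤ (2 * Real.sinh r) ^ 2 * (z.im * w.im) := by
  have h1 : dist z w ≤ 2 * r ↔ Real.sinh (dist z w / 2) ≤ Real.sinh r := by
    rw [Real.sinh_le_sinh]
    constructor <;> intro h <;> linarith
  have hz := z.im_pos
  have hw := w.im_pos
  have hzw : 0 < z.im * w.im := mul_pos hz hw
  have hs : 0 ≤ Real.sinh r := Real.sinh_nonneg_iff.mpr hr
  rw [h1, UpperHalfPlane.sinh_half_dist, div_le_iff₀ (by positivity)]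
  have h2 : dist (z : ℂ) w ^ 2 = (z.re - w.re) ^ 2 + (z.im - w.im) ^ 2 := by
    rw [Complex.dist_eq, Complex.sq_norm, Complex.normSq_apply]
    simp only [Complex.sub_re, Complex.sub_im, UpperHalfPlane.coe_re, UpperHalfPlane.coe_im]
    ring
  have h3 : (Real.sinh r * (2 * √(z.im * w.im))) ^ 2 =
      (2 * Real.sinh r) ^ 2 * (z.im * w.im) := by
    rw [mul_pow, mul_pow, Real.sq_sqrt hzw.le]
    ring
  rw [← h2, ← h3]
  exact (pow_le_pow_iff_left₀ dist_nonneg (by positivity) (by norm_num)).symm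

/-- the scales -/
def D : ℕ → ℕ
  | 0 => 1
  | k + 1 => 256 * D k * D k

/-- the offsets -/
def B : ℕ → ℕ
  | 0 => 0
  | k + 1 => (2 * B k + 1) * (128 * D k)

theorem D_pos : ∀ k, 1 ≤ D k
  | 0 => le_rfl
  | k + 1 => by
    have := D_pos k
    simp only [D]
    nlinarith

theorem D_lt_step (k : ℕ) : D k ≤ D (k + 1) := by
  have := D_pos k
  simp only [D]
  nlinarith

theorem D_mono {a b : ℕ} (h : a ≤ b) : D a ≤ D b := by
  induction h with
  | refl => exact le_rfl
  | step h ih => exact ih.trans (D_lt_step _)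

theorem D_dvd {a b : ℕ} (h : a < b) : ∃ q, D b = D a * (2 * q) := by
  induction h with
  | refl => exact ⟨128 * D a, by simp only [D]; ring⟩
  | @step c h ih =>
    obtain ⟨q, hq⟩ := ih
    exact ⟨q * (256 * D c), by simp only [D]; rw [hq]; ring⟩

theorem B_bound : ∀ k, D k ≤ 2 * B k + 1 ∧ B k + 1 ≤ D k
  | 0 => by simp [D, B]
  | k + 1 => by
    obtain ⟨h1, h2⟩ := B_bound k
    have h3 := D_pos k
    have hB : B (k + 1) = (2 * B k + 1) * (128 * D k) := rfl
    have hD : D (k + 1) = 256 * D k * D k := rfl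
    rw [hB, hD]
    constructor
    · nlinarith
    · nlinarith

variable (m N : ℕ)

/-- the real number `2 sinh r` -/
noncomputable def MM (m : ℕ) : ℝ := 3 * m * (D m : ℝ) ^ 2

/-- the radius -/
noncomputable def rad (m : ℕ) : ℝ := Real.arsinh (MM m / 2)

/-- the number of disks per row -/
def NN (m : ℕ) : ℕ := 3 * m * D m

/-- the vertex type -/
abbrev Vtx (m : ℕ) := Option (Fin m × Fin (NN m))

theorem DR_pos (k : ℕ) : (0 : ℝ) < D k := by exact_mod_cast D_pos k

theorem DR_one (k : ℕ) : (1 : ℝ) ≤ D k := by exact_mod_cast D_pos k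

theorem MM_pos {m : ℕ} (hm : 1 ≤ m) : 0 < MM m := by
  have h1 := DR_pos m
  have h2 : (0 : ℝ) < m := by exact_mod_cast hm
  unfold MM
  positivity

/-- the centres -/
noncomputable def ctr {m : ℕ} (hm : 1 ≤ m) : Vtx m → ℍ
  | none => ⟨⟨0, 2 * MM m / D m⟩, by
      have h1 := DR_pos m
      have h2 := MM_pos hm
      show 0 < 2 * MM m / D m
      positivity⟩
  | some p => ⟨⟨(2 * (p.2.val : ℝ) + 1) / D p.1, 4 / (D p.1 * MM m)⟩, by
      have h1 := DR_pos p.1
      have h2 := MM_pos hm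
      show 0 < 4 / ((D p.1 : ℝ) * MM m)
      positivity⟩

/-- the disk graph -/
noncomputable def G {m : ℕ} (hm : 1 ≤ m) : SimpleGraph (Vtx m) where
  Adj a b := a ≠ b ∧ dist (ctr hm a) (ctr hm b) ≤ 2 * rad m
  symm := ⟨fun a b h => ⟨h.1.symm, by rw [dist_comm]; exact h.2⟩⟩
  loopless := ⟨fun a h => h.1 rfl⟩

theorem sinh_rad {m : ℕ} : 2 * Real.sinh (rad m) = MM m := by
  unfold rad
  rw [Real.sinh_arsinh]
  ring

theorem rad_pos {m : ℕ} (hm : 1 ≤ m) : 0 < rad m := by
  unfold rad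
  rw [Real.arsinh_pos_iff]
  have := MM_pos hm
  positivity

theorem G_adj {m : ℕ} (hm : 1 ≤ m) (a b : Vtx m) : (G hm).Adj a b ↔ a ≠ b ∧
    ((ctr hm a).re - (ctr hm b).re) ^ 2 + ((ctr hm a).im - (ctr hm b).im) ^ 2 ≤
      MM m ^ 2 * ((ctr hm a).im * (ctr hm b).im) := by
  have h := dist_le_iff (ctr hm a) (ctr hm b) (rad_pos hm).le
  rw [sinh_rad] at h
  rw [← h]
  rfl

/-- abscissa -/
noncomputable def xx (k a : ℕ) : ℝ := (2 * (a : ℝ) + 1) / D k

theorem adj_some {m : ℕ} (hm : 1 ≤ m) (p q : Fin m × Fin (NN m)) :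
    (G hm).Adj (some p) (some q) ↔ p ≠ q ∧
    (xx p.1 p.2 - xx q.1 q.2) ^ 2 + 16 / MM m ^ 2 * (1 / (D p.1 : ℝ) - 1 / D q.1) ^ 2 ≤
      16 * (1 / (D p.1 : ℝ) * (1 / D q.1)) := by
  rw [G_adj]
  have h1 := DR_pos p.1
  have h2 := DR_pos q.1
  have h3 := MM_pos hm
  have e1 : (ctr hm (some p)).re = xx p.1 p.2 := rfl
  have e2 : (ctr hm (some q)).re = xx q.1 q.2 := rfl
  have e3 : (ctr hm (some p)).im = 4 / (D p.1 * MM m) := rfl
  have e4 : (ctr hm (some q)).im = 4 / (D q.1 * MM m) := rfl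
  have e5 : (4 / ((D p.1 : ℝ) * MM m) - 4 / (D q.1 * MM m)) ^ 2 =
      16 / MM m ^ 2 * (1 / (D p.1 : ℝ) - 1 / D q.1) ^ 2 := by
    field_simp
    ring
  have e6 : MM m ^ 2 * (4 / ((D p.1 : ℝ) * MM m) * (4 / (D q.1 * MM m))) =
      16 * (1 / (D p.1 : ℝ) * (1 / D q.1)) := by
    field_simp
    ring
  rw [e1, e2, e3, e4, e5, e6]
  simp only [ne_eq, Option.some.injEq]

theorem adj_none {m : ℕ} (hm : 1 ≤ m) (p : Fin m × Fin (NN m)) :
    (G hm).Adj none (some p) := by
  rw [G_adj]
  refine ⟨by simp, ?_⟩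
  have h1 := DR_pos p.1
  have h1' := DR_one p.1
  have h2 := DR_pos m
  have h2' := DR_one m
  have h3 := MM_pos hm
  have h4 : (D p.1 : ℝ) ≤ D m := by exact_mod_cast D_mono p.1.2.le
  have hm' : (1 : ℝ) ≤ m := by exact_mod_cast hm
  have e1 : (ctr hm (some p)).re = (2 * (p.2.val : ℝ) + 1) / D p.1 := rfl
  have e2 : (ctr hm none).re = 0 := rfl
  have e3 : (ctr hm (some p)).im = 4 / (D p.1 * MM m) := rfl
  have e4 : (ctr hm none).im = 2 * MM m / D m := rfl
  rw [e1, e2, e3, e4]
  obtain ⟨M, hM⟩ : ∃ M, M = MM m := ⟨_, rfl⟩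
  obtain ⟨u, hu⟩ : ∃ u : ℝ, u = D p.1 := ⟨_, rfl⟩
  obtain ⟨w, hw⟩ : ∃ w : ℝ, w = D m := ⟨_, rfl⟩
  have hMeq : M = 3 * m * w ^ 2 := by rw [hM, hw]; rfl
  rw [← hM, ← hu, ← hw]
  rw [← hM] at h3
  rw [← hu] at h1 h1' h4
  rw [← hw] at h2 h2' h4
  have hx : (2 * (p.2.val : ℝ) + 1) ≤ 6 * m * w := by
    have h5 : 2 * p.2.val + 1 ≤ 6 * m * D m := by
      have h6 : p.2.val < 3 * m * D m := p.2.2
      have h8 : 6 * m * D m = 2 * (3 * m * D m) := by ring
      rw [h8]
      omega
    rw [hw]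
    exact_mod_cast h5
  have hx0 : (0 : ℝ) ≤ 2 * (p.2.val : ℝ) + 1 := by positivity
  obtain ⟨x, hxx⟩ : ∃ x : ℝ, x = 2 * (p.2.val : ℝ) + 1 := ⟨_, rfl⟩
  rw [← hxx] at hx hx0 ⊢
  -- y ≤ Y
  have hM1 : 1 ≤ M := by rw [hMeq]; nlinarith
  have hMw : 3 * w ^ 2 ≤ M := by rw [hMeq]; nlinarith
  have hy : 4 / (u * M) ≤ 2 * M / w := by
    rw [div_le_div_iff₀ (by positivity) h2]
    nlinarith [mul_pos h1 h3]
  have hy0 : 0 < 4 / (u * M) := by positivity
  have hY0 : 0 < 2 * M / w := by positivity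
  have h5 : (2 * M / w - 4 / (u * M)) ^ 2 ≤ (2 * M / w) ^ 2 := by
    apply pow_le_pow_left₀ (by linarith)
    linarith
  have h6 : (0 - x / u) ^ 2 ≤ (2 * M / w) ^ 2 := by
    have : (0 - x / u) ^ 2 = (x / u) ^ 2 := by ring
    rw [this]
    apply pow_le_pow_left₀ (by positivity)
    rw [div_le_div_iff₀ h1 h2]
    calc x * w ≤ 6 * m * w * w := by nlinarith
      _ = 2 * M := by rw [hMeq]; ring
      _ ≤ 2 * M * u := by nlinarith
  have h7 : M ^ 2 * (2 * M / w * (4 / (u * M))) = 8 * M ^ 2 / (u * w) := by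
    field_simp
    ring
  have h8 : (2 * M / w) ^ 2 = 4 * M ^ 2 / (w * w) := by ring
  have h9 : 4 * M ^ 2 / (w * w) ≤ 4 * M ^ 2 / (u * w) := by
    apply div_le_div_of_nonneg_left (by positivity) (by positivity)
    exact mul_le_mul_of_nonneg_right h4 h2.le
  rw [h7]
  have h10 : 8 * M ^ 2 / (u * w) = 4 * M ^ 2 / (u * w) + 4 * M ^ 2 / (u * w) := by ring
  rw [h10]
  rw [h8] at h5 h6
  linarith

theorem adj_row {m : ℕ} (hm : 1 ≤ m) (k : Fin m) (a b : Fin (NN m)) (hab : b.val = a.val + 1) :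
    (G hm).Adj (some (k, a)) (some (k, b)) := by
  rw [adj_some]
  refine ⟨?_, ?_⟩
  · intro h
    rw [Prod.mk.injEq] at h
    have := congrArg Fin.val h.2
    omega
  · have h1 := DR_pos k
    have h2 : xx k a - xx k b = - (2 * (1 / (D k : ℝ))) := by
      unfold xx
      rw [hab]
      push_cast
      field_simp
      ring
    simp only [h2, sub_self]
    have h3 : 0 < 1 / (D k : ℝ) := by positivity
    nlinarith

theorem lt_of_col {m : ℕ} (j k : Fin m) : 3 * j.val * D k + B k < NN m := by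
  have h1 := (B_bound k).2
  have h2 := D_mono k.2.le
  have h3 := j.2
  have h4 : 3 * j.val * D k + B k < (3 * j.val + 1) * D k := by
    have : (3 * j.val + 1) * D k = 3 * j.val * D k + D k := by ring
    omega
  have h5 : (3 * j.val + 1) * D k ≤ 3 * m * D m := Nat.mul_le_mul (by omega) h2
  exact lt_of_lt_of_le h4 h5

/-- position of column `j` in row `k` -/
def colp {m : ℕ} (j k : Fin m) : Fin (NN m) := ⟨3 * j.val * D k + B k, lt_of_col j k⟩

theorem xx_colp {m : ℕ} (j k : Fin m) :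
    xx k (colp j k) = 6 * j.val + (2 * (B k : ℝ) + 1) / D k := by
  have h1 := DR_pos k
  unfold xx colp
  push_cast
  field_simp
  ring

theorem adj_col {m : ℕ} (hm : 1 ≤ m) (j k k' : Fin m) (hk : k'.val = k.val + 1) :
    (G hm).Adj (some (k, colp j k)) (some (k', colp j k')) := by
  rw [adj_some]
  refine ⟨?_, ?_⟩
  · intro h
    rw [Prod.mk.injEq] at h
    have := congrArg Fin.val h.1
    omega
  · rw [xx_colp, xx_colp]
    obtain ⟨u, hu⟩ : ∃ u : ℝ, u = D k := ⟨_, rfl⟩
    obtain ⟨b, hb⟩ : ∃ b : ℝ, b = B k := ⟨_, rfl⟩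
    have hu1 : 1 ≤ u := by rw [hu]; exact DR_one _
    have hu' : (D k' : ℝ) = 256 * u * u := by
      rw [hk, hu]
      simp only [D]
      push_cast
      ring
    have hb' : (B k' : ℝ) = (2 * b + 1) * (128 * u) := by
      rw [hk, hu, hb]
      simp only [B]
      push_cast
      ring
    have hM : 3 * (256 * u * u) ^ 2 ≤ MM m := by
      rw [← hu']
      unfold MM
      have h1 : (D k' : ℝ) ≤ D m := by exact_mod_cast D_mono k'.2.le
      have h2 : (D k' : ℝ) ^ 2 ≤ (D m : ℝ) ^ 2 := pow_le_pow_left₀ (DR_pos _).le h1 2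
      have hm' : (1 : ℝ) ≤ m := by exact_mod_cast hm
      have h3 : 0 ≤ (D m : ℝ) ^ 2 := by positivity
      nlinarith
    have hMp := MM_pos hm
    rw [hu', hb', ← hu, ← hb]
    obtain ⟨M, hM'⟩ : ∃ M, M = MM m := ⟨_, rfl⟩
    rw [← hM'] at hM hMp ⊢
    have hu0 : 0 < u := by linarith
    have h1 : (6 * (j.val : ℝ) + (2 * b + 1) / u - (6 * (j.val : ℝ) +
        (2 * ((2 * b + 1) * (128 * u)) + 1) / (256 * u * u))) ^ 2 = (1 / (256 * u * u)) ^ 2 := by
      field_simp
      ring
    rw [h1]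
    have h2 : (1 / u - 1 / (256 * u * u)) ^ 2 ≤ (1 / u) ^ 2 := by
      apply pow_le_pow_left₀
      · rw [sub_nonneg]
        apply one_div_le_one_div_of_le hu0
        nlinarith
      · have : 0 < 1 / (256 * u * u) := by positivity
        linarith
    have h3 : 16 / M ^ 2 * (1 / u - 1 / (256 * u * u)) ^ 2 ≤ 16 / M ^ 2 * (1 / u) ^ 2 :=
      mul_le_mul_of_nonneg_left h2 (by positivity)
    have h4 : 16 / M ^ 2 * (1 / u) ^ 2 ≤ 15 * (1 / u * (1 / (256 * u * u))) := by
      have h5 : 16 / M ^ 2 * (1 / u) ^ 2 = 16 / (M ^ 2 * u ^ 2) := by field_simp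
      have h6 : 15 * (1 / u * (1 / (256 * u * u))) = 15 / (256 * u ^ 3) := by field_simp
      rw [h5, h6, div_le_div_iff₀ (by positivity) (by positivity)]
      have h7 : 1 ≤ u ^ 2 := by nlinarith
      have h8 : 768 * u ≤ M := by nlinarith [mul_pos hu0 hu0]
      have h9 : 768 * u * 768 ≤ M ^ 2 := by nlinarith
      have h10 : 0 ≤ u ^ 2 := by positivity
      nlinarith [mul_le_mul_of_nonneg_right h9 h10]
    have h5 : (1 / (256 * u * u)) ^ 2 ≤ 1 * (1 / u * (1 / (256 * u * u))) := by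
      rw [sq, one_mul]
      apply mul_le_mul_of_nonneg_right _ (by positivity)
      apply one_div_le_one_div_of_le hu0
      nlinarith
    linarith

theorem nonadj_far {m : ℕ} (hm : 1 ≤ m) {p q : Fin m × Fin (NN m)}
    (h : 16 * (1 / (D p.1 : ℝ) * (1 / D q.1)) < (xx p.1 p.2 - xx q.1 q.2) ^ 2) :
    ¬ (G hm).Adj (some p) (some q) := by
  rw [adj_some]
  rintro ⟨-, h2⟩
  have : 0 ≤ 16 / MM m ^ 2 * (1 / (D p.1 : ℝ) - 1 / D q.1) ^ 2 := by positivity
  linarith

theorem sq_le_of_adj {m : ℕ} (hm : 1 ≤ m) {p q : Fin m × Fin (NN m)}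
    (h : (G hm).Adj (some p) (some q)) :
    (xx p.1 p.2 - xx q.1 q.2) ^ 2 ≤ 16 * (1 / (D p.1 : ℝ) * (1 / D q.1)) := by
  by_contra hc
  exact nonadj_far hm (not_le.mp hc) h

theorem cols_far {m : ℕ} (j j' k k' : Fin m) (hj : j < j') :
    25 ≤ (xx k (colp j k) - xx k' (colp j' k')) ^ 2 := by
  rw [xx_colp, xx_colp]
  have h1 := DR_pos k
  have h2 := DR_pos k'
  have hb := B_bound k
  have hb' := B_bound k'
  have h3 : (2 * (B k : ℝ) + 1) / D k ≤ 2 := by
    rw [div_le_iff₀ h1]
    have : 2 * B k + 1 ≤ 2 * D k := by omega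
    exact_mod_cast this
  have h4 : 1 ≤ (2 * (B k' : ℝ) + 1) / D k' := by
    rw [le_div_iff₀ h2, one_mul]
    exact_mod_cast hb'.1
  have h5 : (j.val : ℝ) + 1 ≤ j'.val := by
    have : j.val + 1 ≤ j'.val := hj
    exact_mod_cast this
  nlinarith

theorem cols_indep {m : ℕ} (hm : 1 ≤ m) (j j' k k' : Fin m) (hj : j ≠ j') :
    ¬ (G hm).Adj (some (k, colp j k)) (some (k', colp j' k')) := by
  apply nonadj_far
  have h1 := DR_one k
  have h2 := DR_one k'
  have h3 : 1 / (D k : ℝ) ≤ 1 := by rw [div_le_one (DR_pos k)]; exact h1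
  have h4 : 1 / (D k' : ℝ) ≤ 1 := by rw [div_le_one (DR_pos k')]; exact h2
  have h5 : 0 < 1 / (D k : ℝ) := by have := DR_pos k; positivity
  have h6 : 0 < 1 / (D k' : ℝ) := by have := DR_pos k'; positivity
  have h7 : 25 ≤ (xx k (colp j k) - xx k' (colp j' k')) ^ 2 := by
    rcases lt_or_gt_of_ne hj with h | h
    · exact cols_far j j' k k' h
    · have := cols_far j' j k' k h
      have he : (xx k (colp j k) - xx k' (colp j' k')) ^ 2 =
        (xx k' (colp j' k') - xx k (colp j k)) ^ 2 := by ring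
      rw [he]; exact this
  have h8 : (1 / (D k : ℝ)) * (1 / D k') ≤ 1 := by nlinarith
  simp only
  linarith

theorem two_rows {m : ℕ} (hm : 1 ≤ m) {p q s : Fin m × Fin (NN m)} (h1 : p.1 < q.1)
    (h2 : q.1 < s.1) (hps : (G hm).Adj (some p) (some s)) (hqs : (G hm).Adj (some q) (some s)) :
    False := by
  have e1 := sq_le_of_adj hm hps
  have e2 := sq_le_of_adj hm hqs
  obtain ⟨c, hc⟩ := D_dvd h1
  obtain ⟨u, hu⟩ : ∃ u : ℝ, u = 1 / D p.1 := ⟨_, rfl⟩
  obtain ⟨v, hv⟩ : ∃ v : ℝ, v = 1 / D q.1 := ⟨_, rfl⟩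
  obtain ⟨w, hw⟩ : ∃ w : ℝ, w = 1 / D s.1 := ⟨_, rfl⟩
  have d1 := DR_pos p.1
  have d2 := DR_pos q.1
  have d3 := DR_pos s.1
  have hu0 : 0 < u := by rw [hu]; positivity
  have hv0 : 0 < v := by rw [hv]; positivity
  have hw0 : 0 < w := by rw [hw]; positivity
  have hu1 : u ≤ 1 := by rw [hu, div_le_one d1]; exact DR_one _
  have hvu : v ≤ u := by
    rw [hu, hv]
    apply one_div_le_one_div_of_le d1
    exact_mod_cast D_mono (le_of_lt h1)
  have hwv : 256 * w ≤ v ^ 2 := by
    have h3 : 256 * (D q.1 : ℝ) * D q.1 ≤ D s.1 := by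
      have : D (q.1.val + 1) ≤ D s.1 := D_mono h2
      exact_mod_cast this
    rw [hw, hv, div_pow, one_pow, mul_one_div, div_le_div_iff₀ d3 (by positivity)]
    nlinarith
  have hpar : v ^ 2 ≤ (xx p.1 p.2 - xx q.1 q.2) ^ 2 := by
    have h3 : (D q.1 : ℝ) = D p.1 * (2 * c) := by exact_mod_cast hc
    have h4 : xx p.1 p.2 - xx q.1 q.2 =
        (((2 * (p.2.val : ℤ) + 1) * (2 * c) - (2 * q.2.val + 1) : ℤ) : ℝ) * v := by
      have hc0 : (c : ℝ) ≠ 0 := by
        intro h0
        rw [h0] at h3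
        linarith
      unfold xx
      rw [hv, h3]
      push_cast
      field_simp
    rw [h4, mul_pow]
    have h5 : (1 : ℝ) ≤ (((2 * (p.2.val : ℤ) + 1) * (2 * c) - (2 * q.2.val + 1) : ℤ) : ℝ) ^ 2 := by
      have h6 : ((2 * (p.2.val : ℤ) + 1) * (2 * c) - (2 * q.2.val + 1)) ≠ 0 := by
        intro h0
        have h7 : (2 * (p.2.val : ℤ) + 1) * (2 * c) = 2 * ((2 * (p.2.val : ℤ) + 1) * c) := by ring
        rw [h7] at h0
        generalize (2 * (p.2.val : ℤ) + 1) * c = z at h0
        omega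
      have h8 : (1 : ℤ) ≤ ((2 * (p.2.val : ℤ) + 1) * (2 * c) - (2 * q.2.val + 1)) ^ 2 := by
        have := sq_nonneg ((2 * (p.2.val : ℤ) + 1) * (2 * c) - (2 * q.2.val + 1))
        have h9 : ((2 * (p.2.val : ℤ) + 1) * (2 * c) - (2 * q.2.val + 1)) ^ 2 ≠ 0 :=
          pow_ne_zero 2 h6
        omega
      exact_mod_cast h8
    nlinarith [sq_nonneg v]
  rw [← hu, ← hw] at e1
  rw [← hv, ← hw] at e2
  have h3 : (xx p.1 p.2 - xx q.1 q.2) ^ 2 ≤
      2 * ((xx p.1 p.2 - xx s.1 s.2) ^ 2 + (xx q.1 q.2 - xx s.1 s.2) ^ 2) := by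
    nlinarith [sq_nonneg ((xx p.1 p.2 - xx s.1 s.2) + (xx q.1 q.2 - xx s.1 s.2))]
  have h4 : u * w ≤ w := by nlinarith
  have h5 : v * w ≤ w := by nlinarith
  nlinarith [pow_pos hv0 2]

theorem same_row {m : ℕ} (hm : 1 ≤ m) {k l : Fin m} {a b c : Fin (NN m)} (hkl : k < l)
    (ha : (G hm).Adj (some (k, a)) (some (l, c))) (hb : (G hm).Adj (some (k, b)) (some (l, c))) :
    a = b := by
  have e1 := sq_le_of_adj hm ha
  have e2 := sq_le_of_adj hm hb
  simp only at e1 e2
  have d1 := DR_pos k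
  have d2 := DR_pos l
  obtain ⟨u, hu⟩ : ∃ u : ℝ, u = 1 / D k := ⟨_, rfl⟩
  obtain ⟨w, hw⟩ : ∃ w : ℝ, w = 1 / D l := ⟨_, rfl⟩
  have hu0 : 0 < u := by rw [hu]; positivity
  have hw0 : 0 < w := by rw [hw]; positivity
  have hu1 : u ≤ 1 := by rw [hu, div_le_one d1]; exact DR_one _
  have hwu : 256 * w ≤ u ^ 2 := by
    have h3 : 256 * (D k : ℝ) * D k ≤ D l := by
      have : D (k.val + 1) ≤ D l := D_mono hkl
      exact_mod_cast this
    rw [hw, hu, div_pow, one_pow, mul_one_div, div_le_div_iff₀ d2 (by positivity)]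
    nlinarith
  rw [← hu, ← hw] at e1 e2
  have h3 : (xx k a - xx k b) ^ 2 ≤ 2 * ((xx k a - xx l c) ^ 2 + (xx k b - xx l c) ^ 2) := by
    nlinarith [sq_nonneg ((xx k a - xx l c) + (xx k b - xx l c))]
  have h4 : xx k a - xx k b = 2 * (((a.val : ℤ) - b.val : ℤ) : ℝ) * u := by
    unfold xx
    rw [hu]
    push_cast
    field_simp
    ring
  by_contra hne
  have h5 : (1 : ℝ) ≤ (((a.val : ℤ) - b.val : ℤ) : ℝ) ^ 2 := by
    have h6 : ((a.val : ℤ) - b.val) ≠ 0 := by
      intro h0
      exact hne (Fin.ext (by omega))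
    have h8 : (1 : ℤ) ≤ ((a.val : ℤ) - b.val) ^ 2 := by
      have := sq_nonneg ((a.val : ℤ) - b.val)
      have h9 : ((a.val : ℤ) - b.val) ^ 2 ≠ 0 := pow_ne_zero 2 h6
      omega
    exact_mod_cast h8
  rw [h4, mul_pow, mul_pow] at h3
  have h6 : u * w ≤ w := by nlinarith
  nlinarith [pow_pos hu0 2]

theorem row_close {m : ℕ} (hm : 1 ≤ m) {k : Fin m} {a b : Fin (NN m)}
    (h : (G hm).Adj (some (k, a)) (some (k, b))) : b.val ≤ a.val + 2 := by
  have e1 := sq_le_of_adj hm h
  simp only at e1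
  have d1 := DR_pos k
  obtain ⟨u, hu⟩ : ∃ u : ℝ, u = 1 / D k := ⟨_, rfl⟩
  have hu0 : 0 < u := by rw [hu]; positivity
  have h4 : xx k a - xx k b = 2 * ((a.val : ℝ) - b.val) * u := by
    unfold xx
    rw [hu]
    field_simp
    ring
  rw [h4, ← hu] at e1
  by_contra hc
  have h5 : (a.val : ℝ) + 3 ≤ b.val := by
    have : a.val + 3 ≤ b.val := by omega
    exact_mod_cast this
  have h6 : 0 < u * u := by positivity
  have h7 : 9 ≤ ((a.val : ℝ) - b.val) ^ 2 := by nlinarith
  nlinarith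

/-- In every tree decomposition of a graph `K` containing the rows, some bag contains a large
independent set of row vertices. -/
theorem exists_big {m : ℕ} (hm : 1 ≤ m) {W : Type} (K : SimpleGraph W)
    (φ : Fin m × Fin (NN m) → W)
    (hK : ∀ p q, K.Adj (φ p) (φ q) ↔ (G hm).Adj (some p) (some q))
    {n : ℕ} {T : SimpleGraph (Fin n)} {X : Fin n → Finset W} (h : IsTreeDecomposition K T X) :
    ∃ t, ∃ S : Finset (Fin m × Fin (NN m)), (∀ p ∈ S, φ p ∈ X t) ∧
      (∀ p ∈ S, ∀ q ∈ S, ¬ (G hm).Adj (some p) (some q)) ∧ m ≤ 2 * S.card := by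
  classical
  have hN : 0 < NN m := by
    have := D_pos m
    unfold NN
    positivity
  obtain ⟨t, ht⟩ := exists_grid_bag h hm hN (fun k a => φ (k, a)) colp
    (fun k a b hab => (hK _ _).mpr (adj_row hm k a b hab))
    (fun j k k' hk => (hK _ _).mpr (adj_col hm j k k' hk))
  refine ⟨t, ?_⟩
  rcases ht with ht | ht
  · choose a ha using ht
    obtain ⟨I, hI, hI'⟩ := exists_half_indep
      (fun k k' : Fin m => (G hm).Adj (some (k, a k)) (some (k', a k')))
      (fun _ _ h => h.symm) (fun _ h => (G hm).irrefl h)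
      (fun k k' k'' h1 h2 h3 h4 => two_rows hm (p := (k, a k)) (q := (k', a k'))
        (s := (k'', a k'')) h1 h2 h3 h4)
    refine ⟨I.image (fun k => (k, a k)), ?_, ?_, ?_⟩
    · intro p hp
      obtain ⟨k, -, rfl⟩ := Finset.mem_image.mp hp
      exact ha k
    · intro p hp q hq
      obtain ⟨k, hk, rfl⟩ := Finset.mem_image.mp hp
      obtain ⟨k', hk', rfl⟩ := Finset.mem_image.mp hq
      exact hI' k hk k' hk'
    · rw [Finset.card_image_of_injective]
      · exact hI
      · intro k k' hkk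
        exact (Prod.mk.inj hkk).1
  · choose κ hκ using ht
    have hinj : Function.Injective (fun j => (κ j, colp j (κ j))) := by
      intro j j' hjj
      by_contra hne
      have h1 : (25 : ℝ) ≤ 0 := by
        have h2 := Prod.mk.inj hjj
        rcases lt_or_gt_of_ne hne with h3 | h3
        · have := cols_far j j' (κ j) (κ j') h3
          rw [h2.2, h2.1] at this
          simpa using this
        · have := cols_far j' j (κ j') (κ j) h3
          rw [h2.2, h2.1] at this
          simpa using this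
      norm_num at h1
    refine ⟨Finset.univ.image (fun j => (κ j, colp j (κ j))), ?_, ?_, ?_⟩
    · intro p hp
      obtain ⟨j, -, rfl⟩ := Finset.mem_image.mp hp
      exact hκ j
    · intro p hp q hq
      obtain ⟨j, -, rfl⟩ := Finset.mem_image.mp hp
      obtain ⟨j', -, rfl⟩ := Finset.mem_image.mp hq
      by_cases hjj : j = j'
      · subst hjj
        exact (G hm).irrefl
      · exact cols_indep hm j j' _ _ hjj
    · rw [Finset.card_image_of_injective _ hinj]
      simp
      omega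

theorem clique_free {m : ℕ} (hm : 1 ≤ m) : (G hm).CliqueFree 6 := by
  classical
  intro s hs
  rw [SimpleGraph.isNClique_iff] at hs
  obtain ⟨hclq, hcard⟩ := hs
  obtain ⟨s', hs'⟩ : ∃ s' : Finset (Fin m × Fin (NN m)), s' = Finset.univ.filter
    (fun p => some p ∈ s) := ⟨_, rfl⟩
  have hmem : ∀ p, p ∈ s' ↔ some p ∈ s := by intro p; rw [hs']; simp
  have hadj : ∀ p ∈ s', ∀ q ∈ s', p ≠ q → (G hm).Adj (some p) (some q) := by
    intro p hp q hq hne
    exact hclq ((hmem p).mp hp) ((hmem q).mp hq) (by simpa using hne)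
  have hcard' : 5 ≤ s'.card := by
    have h1 : s ⊆ insert none (s'.image some) := by
      intro v hv
      rcases v with _ | p
      · exact Finset.mem_insert_self _ _
      · exact Finset.mem_insert_of_mem (Finset.mem_image_of_mem _ ((hmem p).mpr hv))
    have h2 := Finset.card_le_card h1
    have h3 := Finset.card_insert_le (none : Vtx m) (s'.image some)
    have h4 : (s'.image (some : _ → Vtx m)).card ≤ s'.card := Finset.card_image_le
    omega
  have hne : s'.Nonempty := Finset.card_pos.mp (by omega)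
  obtain ⟨q, hq, hmax⟩ := Finset.exists_max_image s' (fun p => p.1) hne
  have hsplit : (s'.filter (fun p => p.1 = q.1)).card +
      (s'.filter (fun p => ¬ p.1 = q.1)).card = s'.card :=
    Finset.card_filter_add_card_filter_not _
  have hB : (s'.filter (fun p => ¬ p.1 = q.1)).card ≤ 1 := by
    rw [Finset.card_le_one]
    intro p1 hp1 p2 hp2
    simp only [Finset.mem_filter] at hp1 hp2
    have l1 : p1.1 < q.1 := lt_of_le_of_ne (hmax _ hp1.1) hp1.2
    have l2 : p2.1 < q.1 := lt_of_le_of_ne (hmax _ hp2.1) hp2.2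
    have a1 := hadj p1 hp1.1 q hq (by rintro rfl; exact hp1.2 rfl)
    have a2 := hadj p2 hp2.1 q hq (by rintro rfl; exact hp2.2 rfl)
    rcases lt_trichotomy p1.1 p2.1 with h | h | h
    · exact (two_rows hm h l2 a1 a2).elim
    · obtain ⟨k, a⟩ := p1
      obtain ⟨k', b⟩ := p2
      simp only at h
      subst h
      have := same_row hm (a := a) (b := b) (c := q.2) l1 a1 a2
      rw [this]
    · exact (two_rows hm h l1 a2 a1).elim
  have hA : (s'.filter (fun p => p.1 = q.1)).card ≤ 3 := by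
    have hne' : (s'.filter (fun p => p.1 = q.1)).Nonempty := ⟨q, by simp [hq]⟩
    obtain ⟨p0, hp0, hmin⟩ := Finset.exists_min_image _ (fun p => p.2) hne'
    have : (s'.filter (fun p => p.1 = q.1)).card ≤ (Finset.range 3).card := by
      apply Finset.card_le_card_of_injOn (fun p => p.2.val - p0.2.val)
      · intro p hp
        have hp' : p ∈ s'.filter (fun p => p.1 = q.1) := hp
        have hm1 : p0.2.val ≤ p.2.val := hmin p hp'
        simp only [Finset.mem_filter] at hp' hp0
        simp only [Finset.coe_range, Set.mem_Iio]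
        by_cases hpp : p0 = p
        · rw [hpp]; omega
        · have h1 := hadj p0 hp0.1 p hp'.1 hpp
          obtain ⟨k, a⟩ := p0
          obtain ⟨k', b⟩ := p
          simp only at hp0 hp' h1 hm1 ⊢
          have hkk : k = k' := hp0.2.trans hp'.2.symm
          subst hkk
          have := row_close hm h1
          omega
      · intro p hp p' hp' he
        have hp1 : p ∈ s'.filter (fun p => p.1 = q.1) := hp
        have hp1' : p' ∈ s'.filter (fun p => p.1 = q.1) := hp'
        have hm1 : p0.2.val ≤ p.2.val := hmin p hp1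
        have hm2 : p0.2.val ≤ p'.2.val := hmin p' hp1'
        simp only [Finset.mem_filter] at hp1 hp1'
        simp only at he
        apply Prod.ext
        · exact hp1.2.trans hp1'.2.symm
        · apply Fin.ext
          omega
    simpa using this
  omega

/-- **Main result.** The layered tree-independence number of hyperbolic uniform disk graphs is
unbounded; moreover this is witnessed by graphs with a vertex adjacent to all others, of bounded
clique number, and such that the neighbourhoods of that vertex have unbounded treewidth. -/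
theorem result : ∀ c : ℕ, ∃ (r : ℝ) (V : Type) (_ : Fintype V) (G : SimpleGraph V) (v : V),
    0 < r ∧ IsUniformDiskGraph r G ∧ ¬ LayeredTreeAlphaLE G c ∧ G.CliqueFree 6 ∧
    (∀ w, w ≠ v → G.Adj v w) ∧
    ∀ (n : ℕ) (T : SimpleGraph (Fin n)) (X : Fin n → Finset (G.neighborSet v)),
      IsTreeDecomposition (G.induce (G.neighborSet v)) T X → ∃ t, c < (X t).card := by
  classical
  intro c
  obtain ⟨m, hmc⟩ : ∃ m : ℕ, m = 6 * c + 1 := ⟨_, rfl⟩
  have hm : 1 ≤ m := by omega
  refine ⟨rad m, Vtx m, inferInstance, G hm, none, rad_pos hm, ⟨ctr hm, fun a b => Iff.rfl⟩, ?_,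
    clique_free hm, ?_, ?_⟩
  · rintro ⟨lay, hlay, n, T, X, hTD, hα⟩
    obtain ⟨t, S, hS1, hS2, hS3⟩ := exists_big hm (G hm) some (fun p q => Iff.rfl) hTD
    have hpart : ∀ i, (S.filter (fun p => lay (some p) = i)).card ≤ c := by
      intro i
      have h1 := hα t i ((S.filter (fun p => lay (some p) = i)).image some) (by
        intro v hv
        obtain ⟨p, hp, rfl⟩ := Finset.mem_image.mp hv
        simp only [Finset.mem_filter] at hp ⊢
        exact ⟨hS1 p hp.1, hp.2⟩) (by
        intro a ha b hb hab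
        simp only [Finset.coe_image, Set.mem_image, Finset.mem_coe, Finset.mem_filter] at ha hb
        obtain ⟨p, hp, rfl⟩ := ha
        obtain ⟨q, hq, rfl⟩ := hb
        exact hS2 p hp.1 q hq.1)
      rwa [Finset.card_image_of_injective _ (Option.some_injective _)] at h1
    have hcov : S ⊆ (S.filter (fun p => lay (some p) = lay none - 1)) ∪
        ((S.filter (fun p => lay (some p) = lay none)) ∪
        (S.filter (fun p => lay (some p) = lay none + 1))) := by
      intro p hp
      have h1 := hlay _ _ (adj_none hm p)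
      have h2 := hlay _ _ (adj_none hm p).symm
      simp only [Finset.mem_union, Finset.mem_filter, hp, true_and]
      omega
    have h1 := Finset.card_le_card hcov
    have h2 := Finset.card_union_le (S.filter (fun p => lay (some p) = lay none - 1))
      ((S.filter (fun p => lay (some p) = lay none)) ∪
        (S.filter (fun p => lay (some p) = lay none + 1)))
    have h3 := Finset.card_union_le (S.filter (fun p => lay (some p) = lay none))
      (S.filter (fun p => lay (some p) = lay none + 1))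
    have h4 := hpart (lay none - 1)
    have h5 := hpart (lay none)
    have h6 := hpart (lay none + 1)
    omega
  · intro w hw
    rcases w with _ | p
    · exact absurd rfl hw
    · exact adj_none hm p
  · intro n T X hTD
    obtain ⟨t, S, hS1, hS2, hS3⟩ := exists_big hm _
      (fun p => (⟨some p, adj_none hm p⟩ : (G hm).neighborSet none))
      (fun p q => Iff.rfl) hTD
    refine ⟨t, ?_⟩
    have h1 : S.card ≤ (X t).card := by
      apply Finset.card_le_card_of_injOn
        (fun p => (⟨some p, adj_none hm p⟩ : (G hm).neighborSet none))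
      · intro p hp
        exact hS1 p hp
      · intro p _ q _ hpq
        exact Option.some_injective _ (Subtype.ext_iff.mp hpq)
    omega

end Pool.Agent.Results.MP_49eb30_co.HyperbolicUnbounded
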